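import Pool.Agent.Helper53.PT.GoalsB

/-!
# Packet SN: elementary bounds of the cosine factor
-/

namespace Pool.Agent.Helper89.PT

open Pool.Agent.Helper53.PT

/-- Chord of the sine on `[0, π/4]`. -/
lemma sin_chord {u : ℝ} (h0 : 0 ≤ u) (h1 : u ≤ 1) :
    u * (√2 / 2) ≤ Real.sin (Real.pi * u / 4) := by
  have hx : (0 : ℝ) ∈ Set.Icc 0 Real.pi := ⟨le_rfl, Real.pi_pos.le⟩
  have hy : Real.pi / 4 ∈ Set.Icc 0 Real.pi :=
    ⟨by positivity, by linarith [Real.pi_pos]⟩
  have hc := (strictConcaveOn_sin_Icc.concaveOn).2 hx hy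
    (by linarith : (0 : ℝ) ≤ 1 - u) h0 (by ring)
  simp only [smul_eq_mul, mul_zero, zero_add, Real.sin_zero, Real.sin_pi_div_four] at hc
  have e : u * (Real.pi / 4) = Real.pi * u / 4 := by ring
  rw [e] at hc
  exact hc

/-- `cos (π u / 2) ≤ 1 - u²` for `|u| ≤ 1`. -/
lemma cos_le {u : ℝ} (h : |u| ≤ 1) : Real.cos (Real.pi * u / 2) ≤ 1 - u ^ 2 := by
  have h1 : Real.cos (Real.pi * u / 2) = 1 - 2 * Real.sin (Real.pi * |u| / 4) ^ 2 := by
    have e1 : Real.cos (Real.pi * u / 2) = Real.cos (2 * (Real.pi * |u| / 4)) := by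
      rcases abs_cases u with ⟨hu, _⟩ | ⟨hu, _⟩
      · rw [hu]; congr 1; ring
      · rw [hu, ← Real.cos_neg]; congr 1; ring
    rw [e1, Real.cos_two_mul, Real.cos_sq']
    ring
  have h2 := sin_chord (abs_nonneg u) h
  have h3 : (|u| * (√2 / 2)) ^ 2 ≤ Real.sin (Real.pi * |u| / 4) ^ 2 :=
    pow_le_pow_left₀ (by positivity) h2 2
  have h4 : (|u| * (√2 / 2)) ^ 2 = u ^ 2 / 2 := by
    rw [mul_pow, sq_abs, div_pow, Real.sq_sqrt (by norm_num)]
    ring
  rw [h1]
  linarith

theorem gSN : GSN := by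
  intro q h2 h4
  have e : Real.cos (Real.pi * (q - 1) / 2) = -Real.sin (Real.pi * (q - 2) / 2) := by
    rw [← Real.cos_add_pi_div_two]
    congr 1
    ring
  have hs0 : 0 ≤ Real.sin (Real.pi * (q - 2) / 2) := by
    apply Real.sin_nonneg_of_nonneg_of_le_pi
    · have : 0 ≤ Real.pi * (q - 2) := mul_nonneg Real.pi_pos.le (by linarith)
      linarith
    · nlinarith [Real.pi_pos]
  have hpi : Real.pi ≤ 3.1416 := Real.pi_lt_d4.le
  rw [e, abs_neg, abs_of_nonneg hs0]
  refine ⟨?_, ?_, ?_⟩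
  · have h := cos_le (u := q - 3) (by rw [abs_le]; constructor <;> linarith)
    have e2 : Real.sin (Real.pi * (q - 2) / 2) = Real.cos (Real.pi * (q - 3) / 2) := by
      rw [← Real.sin_add_pi_div_two]
      congr 1
      ring
    rw [e2]
    linarith [h]
  · have h := Real.sin_le (x := Real.pi * (q - 2) / 2)
      (by have : 0 ≤ Real.pi * (q - 2) := mul_nonneg Real.pi_pos.le (by linarith)
          linarith)
    nlinarith
  · have e3 : Real.sin (Real.pi * (q - 2) / 2) = Real.sin (Real.pi * (4 - q) / 2) := by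
      rw [← Real.sin_pi_sub]
      congr 1
      ring
    have h := Real.sin_le (x := Real.pi * (4 - q) / 2)
      (by have : 0 ≤ Real.pi * (4 - q) := mul_nonneg Real.pi_pos.le (by linarith)
          linarith)
    rw [e3]
    nlinarith

end Pool.Agent.Helper89.PT
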