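import Pool.Agent.Helper53.PT.GoalsC

/-!
# IXP: unfolding of the checks of the indices
-/

namespace Pool.Agent.Helper89.PT

open Pool.Agent.Helper53.PT

theorem band {a b : Bool} (h : cond a b false = true) : a = true ∧ b = true := by
  cases a
  · exact absurd h (by simp)
  · exact ⟨rfl, h⟩

theorem le_mn {x a b : ℕ} (h : x ≤ N.mn a b) : x ≤ a ∧ x ≤ b := by
  unfold N.mn at h
  cases hab : Nat.ble a b
  · rw [hab] at h
    have h1 : ¬ a ≤ b := fun h2 => by
      rw [Nat.ble_eq_true_of_le h2] at hab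
      exact absurd hab (by simp)
    have h2 : x ≤ b := h
    omega
  · rw [hab] at h
    have h1 := Nat.le_of_ble_eq_true hab
    have h2 : x ≤ a := h
    omega

theorem mx_le {x a b : ℕ} (h : N.mx a b ≤ x) : a ≤ x ∧ b ≤ x := by
  unfold N.mx at h
  cases hab : Nat.ble a b
  · rw [hab] at h
    have h1 : ¬ a ≤ b := fun h2 => by
      rw [Nat.ble_eq_true_of_le h2] at hab
      exact absurd hab (by simp)
    have h2 : a ≤ x := h
    omega
  · rw [hab] at h
    have h1 := Nat.le_of_ble_eq_true hab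
    have h2 : b ≤ x := h
    omega

theorem ble {a b : ℕ} (h : Nat.ble a b = true) : a ≤ b := Nat.le_of_ble_eq_true h

theorem beq {a b : ℕ} (h : Nat.beq a b = true) : a = b := Nat.eq_of_beq_eq_true h

theorem sl (a b : ℕ) : Nat.shiftLeft a b = a * 2 ^ b := Nat.shiftLeft_eq a b

theorem sr (a b : ℕ) : Nat.shiftRight a b = a / 2 ^ b := Nat.shiftRight_eq_div_pow a b

theorem gIXP : GIXP := by
  intro hF B I h
  obtain ⟨-, -, -, -, hall, -, hfrc⟩ := hF
  obtain ⟨D, hD⟩ : ∃ D, D = N.mkTab B I := ⟨_, rfl⟩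
  rw [← hD] at h
  have eB : D.B = B := by rw [hD, N.mkTab]
  have eI : D.I = I := by rw [hD, N.mkTab]
  have ePL : D.PL = N.tPL B := by rw [hD, N.mkTab]
  have ePU : D.PU = N.tPU B := by rw [hD, N.mkTab]
  have eSL : D.SL = N.tSL B := by rw [hD, N.mkTab]
  have eST : D.ST = N.tST B := by rw [hD, N.mkTab]
  have eU0 : D.U0 = N.tU0 B := by rw [hD, N.mkTab]
  have eLL : D.LL = N.tLL B I.kz := by rw [hD, N.mkTab]
  have eF : D.F = N.tF I := by rw [hD, N.mkTab]
  unfold N.ixOK at h
  simp only [eB, eI, ePL, ePU, eSL, eST, eF, eLL, N.one, N.zR, N.mM, eU0] at h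
  obtain ⟨h1, h⟩ := band h
  obtain ⟨a1, h1⟩ := band h1
  obtain ⟨a2, h1⟩ := band h1
  obtain ⟨a3, h1⟩ := band h1
  obtain ⟨a4, h1⟩ := band h1
  obtain ⟨a5, h1⟩ := band h1
  obtain ⟨a6, h1⟩ := band h1
  obtain ⟨a7, h1⟩ := band h1
  obtain ⟨a8, h1⟩ := band h1
  obtain ⟨a9, h1⟩ := band h1
  obtain ⟨a10, h1⟩ := band h1
  obtain ⟨a11, a12⟩ := band h1
  obtain ⟨h2, h⟩ := band h
  obtain ⟨b1, b2⟩ := band h2
  obtain ⟨h3, h⟩ := band h
  obtain ⟨h4, h⟩ := band h
  obtain ⟨h5, h⟩ := band h
  obtain ⟨h6, h⟩ := band h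
  obtain ⟨h7, h⟩ := band h
  obtain ⟨c1, c2⟩ := band h7
  obtain ⟨h8, h⟩ := band h
  obtain ⟨d1, d2⟩ := band h8
  obtain ⟨h9, h⟩ := band h
  obtain ⟨h10, h⟩ := band h
  obtain ⟨h11, h⟩ := band h
  obtain ⟨h12, h⟩ := band h
  obtain ⟨e1, h12⟩ := band h12
  obtain ⟨e2, h12⟩ := band h12
  obtain ⟨e3, e4⟩ := band h12
  obtain ⟨h13, h⟩ := band h
  obtain ⟨f1, h13⟩ := band h13
  obtain ⟨f2, h13⟩ := band h13
  obtain ⟨f3, h13⟩ := band h13
  obtain ⟨f4, f5⟩ := band h13
  obtain ⟨g1, g2⟩ := band h
  rw [hall] at b1 h3 h4 h5 h6 d2 h9 h10 g2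
  have a1' := ble a1
  have a2' := ble a2
  have a3' := ble a3
  have a4' := ble a4
  have a5' := ble a5
  have a6' := ble a6
  have a7' := ble a7
  have a8' := ble a8
  have a9' := ble a9
  have a10' := ble a10
  have a11' := ble a11
  have b2' := ble b2
  have c1' := ble c1
  have c2' := ble c2
  have d1' := beq d1
  have h11' := ble h11
  have e1' := ble e1
  have e2' := ble e2
  have e3' := ble e3
  have e4' := ble e4
  have f1' := ble f1
  have f2' := ble f2
  have f3' := ble f3
  have f4' := ble f4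
  have f5' := ble f5
  have g1' := ble g1
  constructor
  case kzR => exact a1'
  case RM => exact a2'
  case MN => exact a3'
  case N1 => exact a4'
  case RW => exact a5'
  case WN => exact a6'
  case RD => exact a7'
  case DN => exact a8'
  case W9 => exact a9'
  case z1 => exact a10'
  case z7 => exact a11'
  case ni =>
    intro hni
    rw [hni] at a12
    exact beq a12
  case pl =>
    intro k hk
    have := ble (b1 k (Nat.lt_succ_of_le hk))
    exact this
  case pu => exact b2'
  case s1 =>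
    intro k hk
    have h := le_mn (ble (h3 k hk))
    exact h
  case W =>
    intro k hk
    have h := h4 k hk
    unfold N.wOK at h
    have h' := le_mn (ble h)
    simp only [Nat.add_eq, Nat.succ_eq_add_one] at h'
    omega
  case D =>
    intro k hk hk'
    have h := h5 (k - I.kM) (by show k - I.kM < I.kD - I.kM; omega)
    simp only [hfrc] at h
    obtain ⟨p1, p2⟩ := band h
    have p1' := ble p1
    have p2' := ble p2
    have e : Nat.add I.kM (k - I.kM) = k := by show I.kM + (k - I.kM) = k; omega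
    simp only [e, Nat.add_eq, Nat.succ_eq_add_one] at p1' p2'
    omega
  case N0 =>
    intro k hk hk'
    have h := h6 (k - I.kM) (by show k - I.kM < I.kN - I.kM; omega)
    simp only [hfrc] at h
    have p1' := ble h
    have e : Nat.add I.kM (k - I.kM) = k := by show I.kM + (k - I.kM) = k; omega
    simp only [e, Nat.add_eq, Nat.succ_eq_add_one] at p1'
    have p2 := mx_le (le_refl (N.mx (N.fld (N.tPU B) k) (N.fld (N.tPU B) (k + 1))))
    omega
  case kE => exact c1'
  case f0 => exact c2'
  case F0 => exact d1'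
  case FS =>
    intro k hk
    have h := beq (d2 k hk)
    rw [sl] at h
    exact h
  case SM =>
    intro k hk
    exact ble (h9 k (by show k < I.kz - 1; omega))
  case L1 =>
    intro k hk
    have h := h10 k hk
    simp only [hfrc] at h
    obtain ⟨p1, p2⟩ := band h
    have p1' := ble p1
    rw [sl] at p1'
    exact p1'
  case L2 =>
    intro k hk
    have h := h10 k hk
    simp only [hfrc] at h
    obtain ⟨p1, p2⟩ := band h
    have p2' := ble p2
    rw [sl, sr] at p2'
    exact p2'
  case L3 =>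
    rw [sl, sl] at h11'
    exact h11'
  case M1 => exact e1'
  case g0 => exact e2'
  case g1 => exact e3'
  case gc =>
    rw [sl] at e4'
    exact e4'
  case c0 => exact f1'
  case c1 => exact f2'
  case c1' => exact f3'
  case c2 => exact f4'
  case c2' => exact f5'
  case cc =>
    rw [sr] at g1'
    exact g1'
  case sc =>
    rw [hD] at g2
    exact g2

end Pool.Agent.Helper89.PT
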