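import Pool.Agent.Helper53.PT.GoalsD

/-!
# MP_705522_gt: `GREST2`, a small variant of `GREST` (proof adapted from `Pool.Agent.Helper37.PT.REST`)
-/

namespace Pool.Agent.Helper89.PT

open MeasureTheory Set Filter Topology
open Pool.Agent.Helper53.PT

theorem gREST2 : GREST2 := by
  intro hRL hPROD hREST1 hTAU θ z m xW xD yN hFA N cap m0 m1 Q ul X0 X1 x1 B al J hm0 hX0 hB hal hexp hj hbig
  intro n S s X hN hs hm0s hsm1 hQ hul hX0X hXX1
  have hX : 0 < X := lt_of_lt_of_le hX0 hX0X
  have hz : 0 < z := hFA.z0
  have h0 : (0 : ℝ) < θ := by linarith [hFA.th0]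
  have h1 : θ < 1 / 2 := hFA.th1
  have hsn : ∀ i ∈ S, 0 ≤ s i := fun i hi => (hs i hi).1
  have hsum0 : 0 ≤ ∑ i ∈ S, s i := Finset.sum_nonneg hsn
  have hm1 : 0 ≤ m1 := le_trans hsum0 hsm1
  -- the small arguments
  set T : Finset (Fin n) := S.filter (fun i => z < s i * X) with hT
  set T' : Finset (Fin n) := S.filter (fun i => ¬ z < s i * X) with hT'
  have hsplit : ∏ i ∈ S, f0 θ (s i * X) = (∏ i ∈ T, f0 θ (s i * X)) * ∏ i ∈ T', f0 θ (s i * X) := by
    rw [hT, hT', Finset.prod_filter_mul_prod_filter_not]
  have hsmall : ∀ i ∈ T', 0 ≤ s i * X ∧ s i * X ≤ z := by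
    intro i hi
    rw [hT', Finset.mem_filter] at hi
    exact ⟨mul_nonneg (hsn i hi.1) hX.le, not_lt.1 hi.2⟩
  have hT'prod : 0 ≤ ∏ i ∈ T', f0 θ (s i * X) :=
    ((hPROD hRL θ z m xW xD yN hFA n T' (fun i => s i * X)).1 hsmall).1
  have habs1 : ∀ U : Finset (Fin n), U ⊆ S → |∏ i ∈ U, f0 θ (s i * X)| ≤ 1 := by
    intro U hU
    rw [Finset.abs_prod]
    apply Finset.prod_le_one
    · intro i _
      exact abs_nonneg _
    · intro i hi
      exact (aBD h0 h1 (mul_nonneg (hsn i (hU hi)) hX.le)).1
  rcases Nat.eq_zero_or_pos T.card with hc0 | hc1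
  · -- no large argument
    have hTe : T = ∅ := Finset.card_eq_zero.1 hc0
    have hall : ∀ i ∈ S, 0 ≤ s i * X ∧ s i * X ≤ z := by
      intro i hi
      refine ⟨mul_nonneg (hsn i hi) hX.le, ?_⟩
      by_contra hcon
      have : i ∈ T := by
        rw [hT, Finset.mem_filter]
        exact ⟨hi, not_le.1 hcon⟩
      rw [hTe] at this
      exact absurd this (Finset.notMem_empty i)
    obtain ⟨hp0, hp1⟩ := (hPROD hRL θ z m xW xD yN hFA n S (fun i => s i * X)).1 hall
    refine ⟨by linarith, fun ha => ?_⟩
    rw [abs_of_nonneg hp0]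
    refine le_trans hp1 (le_trans (Real.exp_le_exp.2 ?_) (hexp ha))
    have e : ∑ i ∈ S, s i * X = (∑ i ∈ S, s i) * X := by rw [Finset.sum_mul]
    have : m0 * X0 ≤ (∑ i ∈ S, s i) * X := mul_le_mul hm0s hX0X hX0.le hsum0
    rw [e]
    linarith
  · -- at least one
    by_cases hcJ : T.card ≤ J
    · by_cases hodd : al ∨ Odd T.card
      · rcases hj T.card hc1 hcJ hodd with ⟨τ, hτ, hTau, hτX⟩ | hj2
        · exfalso
          have hJ := hTAU n S T s N T.card cap m0 m1 Q τ (Finset.filter_subset _ _) rfl hc1 hN hsn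
            (fun i hi => (hs i hi).2.1) hm0 hm0s hsm1 hQ hτ hTau
          have h3 : (T.card : ℝ) * z < (∑ i ∈ T, s i) * X := by
            have : ∑ i ∈ T, z < ∑ i ∈ T, s i * X := by
              apply Finset.sum_lt_sum_of_nonempty (Finset.card_pos.1 hc1)
              intro i hi
              rw [hT, Finset.mem_filter] at hi
              exact hi.2
            rw [← Finset.sum_mul] at this
            simpa using this
          have h4 : (∑ i ∈ T, s i) * X ≤ T.card * τ * X := mul_le_mul_of_nonneg_right hJ hX.le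
          have h5 : (T.card : ℝ) * τ * X ≤ T.card * z := by
            have h6 : τ * X ≤ τ * X1 := mul_le_mul_of_nonneg_left hXX1 hτ
            calc (T.card : ℝ) * τ * X = T.card * (τ * X) := by ring
              _ ≤ T.card * z := mul_le_mul_of_nonneg_left (by linarith) (Nat.cast_nonneg _)
          linarith
        obtain ⟨τ, yl, yu, U, P, hτ, hTau, hyl, hyu, hU, hP, hUP⟩ := hj2
        have key := hREST1 hRL hPROD hTAU θ z m xW xD yN hFA n S s N T.card cap m0 m1 Q ul X0 X X1 x1
          τ yl yu U P hN hs hm0 hm0s hsm1 hQ hul hX0 hX0X hXX1 hτ hTau hyl hyu hc1 rfl hU hP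
        have k2 : |∏ i ∈ S, f0 θ (s i * X)| ≤ B := le_trans key hUP
        exact ⟨(abs_le.1 k2).1, fun _ => k2⟩
      · push Not at hodd
        obtain ⟨hnal, hnodd⟩ := hodd
        have heven : Even T.card := Nat.not_odd_iff_even.1 hnodd
        have hx1 : x1 ≤ yN := by
          rcases hal with h | h
          · exact absurd h hnal
          · exact h
        refine ⟨?_, fun ha => absurd ha hnal⟩
        have hTprod : 0 ≤ ∏ i ∈ T, f0 θ (s i * X) := by
          have e : ∏ i ∈ T, f0 θ (s i * X) = (-1) ^ T.card * ∏ i ∈ T, (-(f0 θ (s i * X))) := by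
            rw [Finset.prod_neg, ← mul_assoc, ← mul_pow]
            simp
          rw [e, heven.neg_one_pow, one_mul]
          apply Finset.prod_nonneg
          intro i hi
          rw [hT, Finset.mem_filter] at hi
          have := (hRL θ z m xW xD yN hFA).2.2.1 (s i * X) hi.2 (le_trans (hs i hi.1).2.2 hx1)
          linarith
        rw [hsplit]
        have := mul_nonneg hTprod hT'prod
        linarith
    · push Not at hcJ
      rcases hbig with hb | hb | ⟨M, hM, hM1, hMB⟩
      · exfalso
        have h3 : (T.card : ℝ) * z < ∑ i ∈ T, s i * X := by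
          have : ∑ i ∈ T, z < ∑ i ∈ T, s i * X := by
            apply Finset.sum_lt_sum_of_nonempty (Finset.card_pos.1 hc1)
            intro i hi
            rw [hT, Finset.mem_filter] at hi
            exact hi.2
          simpa using this
        have h4 : ∑ i ∈ T, s i * X ≤ ∑ i ∈ S, s i * X := by
          apply Finset.sum_le_sum_of_subset_of_nonneg (Finset.filter_subset _ _)
          intro i hi _
          exact mul_nonneg (hsn i hi) hX.le
        have h5 : ∑ i ∈ S, s i * X ≤ m1 * X1 := by
          rw [← Finset.sum_mul]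
          exact mul_le_mul hsm1 hXX1 hX.le hm1
        have h6 : ((J : ℝ) + 1) * z ≤ T.card * z := by
          apply mul_le_mul_of_nonneg_right _ hz.le
          exact_mod_cast hcJ
        linarith
      · exfalso
        obtain ⟨hN1, hNJ⟩ := hb
        rcases hN with h | h
        · omega
        · have : T.card ≤ S.card := Finset.card_le_card (Finset.filter_subset _ _)
          omega
      · have hM0 : 0 ≤ M := le_trans (abs_nonneg _) (hM z le_rfl)
        have hTM : |∏ i ∈ T, f0 θ (s i * X)| ≤ M ^ T.card := by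
          rw [Finset.abs_prod]
          calc ∏ i ∈ T, |f0 θ (s i * X)| ≤ ∏ i ∈ T, M := by
                apply Finset.prod_le_prod
                · intro i _
                  exact abs_nonneg _
                · intro i hi
                  rw [hT, Finset.mem_filter] at hi
                  exact hM _ hi.2.le
            _ = M ^ T.card := by simp
        have h7 : M ^ T.card ≤ M ^ (J + 1) := pow_le_pow_of_le_one hM0 hM1 hcJ
        have h8 : |∏ i ∈ S, f0 θ (s i * X)| ≤ B := by
          rw [hsplit, abs_mul]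
          calc |∏ i ∈ T, f0 θ (s i * X)| * |∏ i ∈ T', f0 θ (s i * X)| ≤ M ^ T.card * 1 :=
                mul_le_mul hTM (habs1 T' (Finset.filter_subset _ _)) (abs_nonneg _) (by positivity)
            _ ≤ B := by linarith
        exact ⟨(abs_le.1 h8).1, fun _ => h8⟩

end Pool.Agent.Helper89.PT
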