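import Pool.Agent.Helper53.PT.GoalsD
import Pool.Agent.Helper53.PT.B

/-!
# SMK: small coordinates
-/

namespace Pool.Agent.Helper89.PT

open MeasureTheory Set Filter Topology
open Pool.Agent.Helper53.PT

theorem frc_eq {α : Type} (n : ℕ) (f : ℕ → α) : N.frc n f = f n := by cases n <;> rfl

theorem band' {a b : Bool} (h : cond a b false = true) : a = true ∧ b = true := by
  cases a
  · exact absurd h (by simp)
  · exact ⟨rfl, h⟩

theorem gSMK : GSMK := by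
  intro hE D θ z hT h n t i j hn hSx hji hl hi
  unfold N.smOK at h
  rw [frc_eq] at h
  simp only [N.one, N.zR, N.zL] at h
  obtain ⟨h0, h5⟩ := band' h
  obtain ⟨h1, h0⟩ := band' h0
  obtain ⟨h2, h0⟩ := band' h0
  obtain ⟨h3, h4⟩ := band' h0
  have k1 := Nat.le_of_ble_eq_true h1
  have k2 := Nat.le_of_ble_eq_true h2
  have k3 := Nat.le_of_ble_eq_true h3
  have k4 := Nat.le_of_ble_eq_true h4
  have k5 := Nat.le_of_ble_eq_true h5
  have hs11 := hT.s11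
  have hs23 := hT.s23
  have hlam := hT.lam 8388608 (by unfold N.zL; omega)
  have hrh := hT.rh0
  set s1 : ℕ := N.fld (N.tSG D) 11
  set s2 : ℕ := N.fld (N.tSG D) 23
  set zl : ℕ := N.xgN D.I.kz with hzl
  set zr : ℕ := N.xgN D.I.kR with hzr
  set rh : ℕ := N.fld D.RH 0
  set la : ℕ := N.lamU D 8388608
  set E : ℕ := Nat.shiftRight (Nat.mul (Nat.mul 126 s1) zl) 26 with hEdef
  set EU : ℕ := N.expUp E with hEU
  set EL : ℕ := N.expLo (Nat.mul 128 la) with hEL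
  have hzl' : (zl : ℝ) / 2 ^ 26 < z := hT.zl
  have hzr' : z < (zr : ℝ) / 2 ^ 26 := hT.zr
  have hEe : Real.exp (-(vR E)) ≤ vR EU := (hE E).1
  have hEl : vR EL ≤ Real.exp (-(vR (Nat.mul 128 la))) := (hE (Nat.mul 128 la)).2
  clear_value EU EL E zl zr s1 s2 rh la
  have k1' : (2 : ℝ) ^ 40 ≤ 25 * s1 := by
    have : 1099511627776 ≤ 25 * s1 := k1
    have h6 : ((1099511627776 : ℕ) : ℝ) ≤ ((25 * s1 : ℕ) : ℝ) := Nat.cast_le.2 this
    push_cast at h6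
    norm_num
    linarith
  have k2' : (2 : ℝ) ^ 40 ≤ 50 * s2 := by
    have : 1099511627776 ≤ 50 * s2 := k2
    have h6 : ((1099511627776 : ℕ) : ℝ) ≤ ((50 * s2 : ℕ) : ℝ) := Nat.cast_le.2 this
    push_cast at h6
    norm_num
    linarith
  have k3' : (167772160 : ℝ) ≤ zl := by
    have h6 : ((167772160 : ℕ) : ℝ) ≤ (zl : ℝ) := Nat.cast_le.2 k3
    exact_mod_cast h6
  have k4' : (zr : ℝ) ≤ 1073741824 := by
    have h6 : (zr : ℝ) ≤ ((1073741824 : ℕ) : ℝ) := Nat.cast_le.2 k4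
    exact_mod_cast h6
  have hz1 : (5 : ℝ) / 2 ≤ z := by
    have : (5 : ℝ) / 2 ≤ (zl : ℝ) / 2 ^ 26 := by
      rw [le_div_iff₀ (by norm_num)]
      have : (5 : ℝ) / 2 * 2 ^ 26 = 167772160 := by norm_num
      linarith
    linarith
  have hz2 : z ≤ 16 := by
    have : (zr : ℝ) / 2 ^ 26 ≤ 16 := by
      rw [div_le_iff₀ (by norm_num)]
      have : (16 : ℝ) * 2 ^ 26 = 1073741824 := by norm_num
      linarith
    linarith
  -- the main inequality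
  have k5' : 2 + 12800 * (zr / 2 ^ 26 + 1) * EU ≤ rh * EL / 2 ^ 36 := by
    have e1 : Nat.shiftRight zr 26 = zr / 2 ^ 26 := Nat.shiftRight_eq_div_pow _ _
    have e2 : Nat.shiftRight (Nat.mul rh EL) 36 = rh * EL / 2 ^ 36 := Nat.shiftRight_eq_div_pow _ _
    rw [e1, e2] at k5
    exact k5
  have m1 : (2 : ℝ) + 12800 * ((zr / 2 ^ 26 : ℕ) + 1) * EU ≤ rh * EL / 2 ^ 36 := by
    have h6 : ((2 + 12800 * (zr / 2 ^ 26 + 1) * EU : ℕ) : ℝ) ≤ ((rh * EL / 2 ^ 36 : ℕ) : ℝ) :=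
      Nat.cast_le.2 k5'
    have h7 : ((rh * EL / 2 ^ 36 : ℕ) : ℝ) ≤ ((rh * EL : ℕ) : ℝ) / ((2 ^ 36 : ℕ) : ℝ) :=
      Nat.cast_div_le
    push_cast at h6 h7
    linarith
  have m2 : z ≤ ((zr / 2 ^ 26 : ℕ) : ℝ) + 1 := by
    have h6 : zr < (zr / 2 ^ 26 + 1) * 2 ^ 26 := by
      have := Nat.lt_div_mul_add (a := zr) (b := 2 ^ 26) (by norm_num)
      linarith
    have h7 : (zr : ℝ) < (((zr / 2 ^ 26 + 1) * 2 ^ 26 : ℕ) : ℝ) := Nat.cast_lt.2 h6
    push_cast at h7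
    have h8 : (zr : ℝ) / 2 ^ 26 ≤ ((zr / 2 ^ 26 : ℕ) : ℝ) + 1 := by
      rw [div_le_iff₀ (by norm_num)]
      push_cast
      linarith
    linarith
  have m3 : Real.exp (-(126 * vR s1 * z)) ≤ vR EU := by
    refine le_trans (Real.exp_le_exp.2 ?_) hEe
    have e1 : E = 126 * s1 * zl / 2 ^ 26 := hEdef.trans (Nat.shiftRight_eq_div_pow _ _)
    have h6 : (E : ℝ) ≤ ((126 * s1 * zl : ℕ) : ℝ) / ((2 ^ 26 : ℕ) : ℝ) := by
      rw [e1]
      exact Nat.cast_div_le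
    push_cast at h6
    have h7 : vR E ≤ 126 * vR s1 * ((zl : ℝ) / 2 ^ 26) := by
      unfold vR
      rw [div_le_iff₀ (by norm_num)]
      have : 126 * ((s1 : ℝ) / 2 ^ 40) * ((zl : ℝ) / 2 ^ 26) * 2 ^ 40 = 126 * s1 * zl / 2 ^ 26 := by
        ring
      rw [this]
      linarith
    have h8 : 126 * vR s1 * ((zl : ℝ) / 2 ^ 26) ≤ 126 * vR s1 * z := by
      refine mul_le_mul_of_nonneg_left hzl'.le ?_
      unfold vR
      positivity
    linarith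
  have m4 : vR EL ≤ Real.exp (-(128 * vR la)) := by
    have h6 := hEl
    have e : vR (Nat.mul 128 la) = 128 * vR la := by
      show ((128 * la : ℕ) : ℝ) / 2 ^ 40 = 128 * ((la : ℝ) / 2 ^ 40)
      push_cast
      ring
    rw [e] at h6
    exact h6
  have hEU0 : (0 : ℝ) ≤ EU := Nat.cast_nonneg _
  have hrhpos : 0 < rh := by
    rcases Nat.eq_zero_or_pos rh with h6 | h6
    · rw [h6, Nat.zero_mul, Nat.zero_div] at k5'
      omega
    · exact h6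
  have hρ : (0 : ℝ) < (rh : ℝ) / 2 ^ 36 := div_pos (Nat.cast_pos.2 hrhpos) (by norm_num)
  have main : 100 * (128 * z) * Real.exp (-(126 * vR s1 * z)) + 1e-12 ≤
      (rh : ℝ) / 2 ^ 36 * Real.exp (-(128 * vR la)) := by
    have h6 : (rh : ℝ) / 2 ^ 36 * vR EL ≤ (rh : ℝ) / 2 ^ 36 * Real.exp (-(128 * vR la)) :=
      mul_le_mul_of_nonneg_left m4 hρ.le
    have h7 : 100 * (128 * z) * Real.exp (-(126 * vR s1 * z)) ≤
        12800 * (((zr / 2 ^ 26 : ℕ) : ℝ) + 1) * vR EU := by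
      have e : 100 * (128 * z) = 12800 * z := by ring
      rw [e]
      exact mul_le_mul (by linarith) m3 (Real.exp_pos _).le (by positivity)
    have h8 : 12800 * (((zr / 2 ^ 26 : ℕ) : ℝ) + 1) * vR EU + 2 / 2 ^ 40 ≤ (rh : ℝ) / 2 ^ 36 * vR EL := by
      unfold vR
      have e1 : 12800 * (((zr / 2 ^ 26 : ℕ) : ℝ) + 1) * ((EU : ℝ) / 2 ^ 40) + 2 / 2 ^ 40 =
        (2 + 12800 * (((zr / 2 ^ 26 : ℕ) : ℝ) + 1) * EU) / 2 ^ 40 := by ring
      have e2 : (rh : ℝ) / 2 ^ 36 * ((EL : ℝ) / 2 ^ 40) = (rh * EL / 2 ^ 36) / 2 ^ 40 := by ring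
      rw [e1, e2]
      exact div_le_div_of_nonneg_right m1 (by norm_num)
    have h9 : (1e-12 : ℝ) ≤ 2 / 2 ^ 40 := by norm_num
    linarith
  have hσ1 : (1 : ℝ) / 25 ≤ vR s1 := by
    unfold vR
    rw [le_div_iff₀ (by norm_num)]
    linarith
  have hσ : (1 : ℝ) / 50 ≤ vR s2 := by
    unfold vR
    rw [le_div_iff₀ (by norm_num)]
    linarith
  have ha8 : aR 8388608 = 1 / 8 := by
    unfold aR
    norm_num
  rw [ha8] at hlam
  have hc0 : 0 < vR D.B.c0 := by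
    have := hT.cp.1
    unfold vR
    positivity
  exact bKSMALL bRL bKR bKCC bSIG θ z _ _ _ _ _ _ _ _ (vR s2) (vR s1) ((rh : ℝ) / 2 ^ 36) (vR la)
    hT.fa hT.fp hc0 hT.gc hs23.1 hs23.2 hσ hs11 hσ1 hz1 hz2 hrh hlam main hρ n t i j hn hSx hji hl hi

end Pool.Agent.Helper89.PT
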